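import Mathlib

/-!
# Bases with many multipliers: the finite inequality
-/

set_option autoImplicit false

namespace Pool.Agent.H239.MM

open Finset

/-- The number of unordered representations of `n` as a sum of `h` elements of `A`. -/
noncomputable def rep (A : Set ℕ) (h n : ℕ) : ℕ :=
  Set.ncard {s : Multiset ℕ | Multiset.card s = h ∧ (∀ a ∈ s, a ∈ A) ∧ s.sum = n}

/-- `n` is a sum of `h` elements of `A` which are different from `n`. -/
def IsSum (A : Set ℕ) (h n : ℕ) : Prop :=
  ∃ s : Multiset ℕ, Multiset.card s = h ∧ (∀ a ∈ s, a ∈ A) ∧ s.sum = n ∧ n ∉ s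

/-- The multipliers of `A`. -/
def mult (A : Set ℕ) : Set ℕ := {m | ∀ a ∈ A, m * a ∈ A}

theorem mult_mul {A : Set ℕ} {a b : ℕ} (ha : a ∈ mult A) (hb : b ∈ mult A) : a * b ∈ mult A := by
  intro x hx
  rw [mul_assoc]
  exact ha _ (hb _ hx)

theorem mult_one (A : Set ℕ) : 1 ∈ mult A := by
  intro x hx
  rwa [one_mul]

theorem mult_prod {A : Set ℕ} (S : Finset ℕ) (hS : ∀ n ∈ S, n ∈ mult A) : ∏ n ∈ S, n ∈ mult A := by
  classical
  induction S using Finset.induction_on with
  | empty => simpa using mult_one A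
  | insert a s ha ih =>
    rw [prod_insert ha]
    exact mult_mul (hS a (mem_insert_self a s)) (ih fun n hn => hS n (mem_insert_of_mem hn))

theorem reps_finite (A : Set ℕ) (h n : ℕ) :
    {s : Multiset ℕ | Multiset.card s = h ∧ (∀ a ∈ s, a ∈ A) ∧ s.sum = n}.Finite := by
  classical
  refine (Set.finite_Iic (∑ a ∈ range (n + 1), Multiset.replicate h a)).subset ?_
  rintro s ⟨h1, _, h3⟩
  rw [Set.mem_Iic, Multiset.le_iff_count]
  intro a
  by_cases ha : a ∈ s
  · have hle : a ≤ n := h3 ▸ Multiset.single_le_sum (fun x _ => Nat.zero_le x) a ha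
    rw [Multiset.count_sum']
    calc s.count a ≤ h := h1 ▸ Multiset.count_le_card a s
      _ = (Multiset.replicate h a).count a := (Multiset.count_replicate_self a h).symm
      _ ≤ _ := single_le_sum (f := fun x => Multiset.count a (Multiset.replicate h x))
          (fun _ _ => Nat.zero_le _) (mem_range.2 (by omega))
  · rw [Multiset.count_eq_zero_of_notMem ha]
    exact Nat.zero_le _

/-- The ratios of the elements of `s` to `d`. -/
noncomputable def ratios (s : Multiset ℕ) (d : ℕ) : Multiset ℚ := s.map fun a : ℕ => (a : ℚ) / d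

/-- If `K + 1` multipliers divisible by `D` have quotients by `D` with representations of different
shapes, then some number has `K + 1` representations. -/
theorem many_reps {A : Set ℕ} {h K N D : ℕ} (hD : 0 < D) (S : Finset ℕ) (hS : S.card = K + 1)
    (hS1 : ∀ n ∈ S, n ∈ mult A ∧ 0 < n ∧ n ≤ N ∧ D ∣ n) (v : ℕ → Multiset ℕ)
    (hv : ∀ n ∈ S, Multiset.card (v n) = h ∧ (∀ a ∈ v n, a ∈ A) ∧ (v n).sum = n / D)
    (hinj : Set.InjOn (fun n => ratios (v n) (n / D)) S) :
    ∃ L, L ≤ N ^ (K + 1) ∧ K + 1 ≤ rep A h L := by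
  classical
  refine ⟨(∏ n ∈ S, n) / D, (Nat.div_le_self _ _).trans ?_, ?_⟩
  · rw [← hS]
    exact prod_le_pow_card S _ N fun n hn => (hS1 n hn).2.2.1
  set L := (∏ n ∈ S, n) / D with hL
  have hpos : 0 < ∏ n ∈ S, n := prod_pos fun n hn => (hS1 n hn).2.1
  obtain ⟨n0, hn0⟩ : S.Nonempty := card_pos.1 (by omega)
  have hDL : D ∣ ∏ n ∈ S, n := (hS1 n0 hn0).2.2.2.trans (dvd_prod_of_mem _ hn0)
  have hLpos : 0 < L := Nat.div_pos (Nat.le_of_dvd hpos hDL) hD
  have key : ∀ n ∈ S, (∏ m ∈ S.erase n, m) * (n / D) = L := by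
    intro n hn
    rw [hL, ← Nat.mul_div_assoc _ (hS1 n hn).2.2.2, prod_erase_mul _ _ hn]
  set E : ℕ → ℕ := fun n => ∏ m ∈ S.erase n, m with hE
  have hEm : ∀ n ∈ S, E n ∈ mult A := fun n _ =>
    mult_prod _ fun m hm => (hS1 m (mem_of_mem_erase hm)).1
  have hEpos : ∀ n ∈ S, 0 < E n := fun n _ =>
    prod_pos fun m hm => (hS1 m (mem_of_mem_erase hm)).2.1
  have hfin := reps_finite A h L
  unfold rep
  rw [Set.ncard_eq_toFinset_card _ hfin, ← hS]
  refine card_le_card_of_injOn (fun n => (v n).map fun a => E n * a) ?_ ?_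
  · intro n hn
    have hn' : n ∈ S := hn
    rw [mem_coe, Set.Finite.mem_toFinset]
    refine ⟨by rw [Multiset.card_map]; exact (hv n hn').1, ?_, ?_⟩
    · intro a ha
      obtain ⟨b, hb, rfl⟩ := Multiset.mem_map.1 ha
      exact hEm n hn' b ((hv n hn').2.1 b hb)
    · have := Multiset.sum_map_mul_left (s := v n) (a := E n) (f := fun a => a)
      rw [this, Multiset.map_id', (hv n hn').2.2, key n hn']
  · intro n hn m hm hnm
    have hn' : n ∈ S := hn
    have hm' : m ∈ S := hm
    apply hinj hn hm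
    have aux : ∀ k ∈ S, ratios (v k) (k / D)
        = ((v k).map fun a => E k * a).map (fun a : ℕ => (a : ℚ) / L) := by
      intro k hk
      unfold ratios
      rw [Multiset.map_map]
      apply Multiset.map_congr rfl
      intro a _
      have h1 : (L : ℚ) = E k * ((k / D : ℕ) : ℚ) := by
        rw [← key k hk, Nat.cast_mul]
      have h2 : (E k : ℚ) ≠ 0 := by exact_mod_cast (hEpos k hk).ne'
      have h3 : ((k / D : ℕ) : ℚ) ≠ 0 := by
        intro h0
        rw [h0, mul_zero] at h1
        exact hLpos.ne' (by exact_mod_cast h1)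
      simp only [Function.comp]
      rw [h1]
      push_cast
      field_simp
    show ratios (v n) (n / D) = ratios (v m) (m / D)
    rw [aux n hn', aux m hm']
    exact congrArg _ hnm

/-- Few shapes. -/
theorem few_shapes {A : Set ℕ} {h K N D : ℕ} (hD : 0 < D) (T : Finset ℕ)
    (hT : ∀ n ∈ T, n ∈ mult A ∧ 0 < n ∧ n ≤ N ∧ D ∣ n) (v : ℕ → Multiset ℕ)
    (hv : ∀ n ∈ T, Multiset.card (v n) = h ∧ (∀ a ∈ v n, a ∈ A) ∧ (v n).sum = n / D)
    (hr : ∀ L, L ≤ N ^ (K + 1) → rep A h L ≤ K) :
    (T.image fun n => ratios (v n) (n / D)).card ≤ K := by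
  classical
  by_contra hcon
  push Not at hcon
  obtain ⟨U, hU, hUc⟩ := exists_subset_card_eq (Nat.succ_le_of_lt hcon)
  obtain ⟨S, hS, hSb⟩ := (Set.surjOn_image (fun n => ratios (v n) (n / D)) (T : Set ℕ)).mono
    (Set.Subset.refl _) (show (U : Set (Multiset ℚ)) ⊆ _ by
      intro x hx
      have := hU (mem_coe.1 hx)
      rw [← coe_image]
      exact mem_coe.2 this) |>.exists_bijOn_subset
  have hSf : S.Finite := T.finite_toSet.subset hS
  have hc : hSf.toFinset.card = K + 1 := by
    rw [show K + 1 = K.succ from rfl, ← hUc]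
    refine card_bij (fun n _ => ratios (v n) (n / D)) ?_ ?_ ?_
    · intro n hn
      exact hSb.mapsTo (hSf.mem_toFinset.1 hn)
    · intro a ha b hb hab
      exact hSb.injOn (hSf.mem_toFinset.1 ha) (hSf.mem_toFinset.1 hb) hab
    · intro u hu
      obtain ⟨a, ha, h1⟩ := hSb.surjOn (mem_coe.2 hu)
      exact ⟨a, hSf.mem_toFinset.2 ha, h1⟩
  obtain ⟨L, hL, hL2⟩ := many_reps hD hSf.toFinset hc
    (fun n hn => hT n (hS (hSf.mem_toFinset.1 hn))) v
    (fun n hn => hv n (hS (hSf.mem_toFinset.1 hn)))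
    (by rw [Set.Finite.coe_toFinset]; exact hSb.injOn)
  have := hr L hL
  omega

open Classical in
/-- some nonzero element of a multiset -/
noncomputable def pick (s : Multiset ℚ) : ℚ := if h : ∃ x, x ∈ s ∧ x ≠ 0 then h.choose else 0

theorem pick_mem {s : Multiset ℚ} (h : ∃ x, x ∈ s ∧ x ≠ 0) : pick s ∈ s ∧ pick s ≠ 0 := by
  unfold pick
  rw [dif_pos h]
  exact h.choose_spec

open Classical in
/-- a representation of `d` -/
noncomputable def rp (A : Set ℕ) (h d : ℕ) : Multiset ℕ :=
  if H : IsSum A h d then H.choose else 0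

theorem rp_spec {A : Set ℕ} {h d : ℕ} (H : IsSum A h d) :
    Multiset.card (rp A h d) = h ∧ (∀ a ∈ rp A h d, a ∈ A) ∧ (rp A h d).sum = d ∧
      d ∉ rp A h d := by
  unfold rp
  rw [dif_pos H]
  exact H.choose_spec

/-- the denominator of one of the ratios -/
noncomputable def wt (A : Set ℕ) (h d : ℕ) : ℕ := (pick (ratios (rp A h d) d)).den

theorem wt_spec {A : Set ℕ} {h d : ℕ} (hd0 : 0 < d) (H : IsSum A h d) :
    wt A h d ∣ d ∧ 1 < wt A h d := by
  classical
  obtain ⟨h1, h2, h3, h4⟩ := rp_spec H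
  have hd : (d : ℚ) ≠ 0 := by exact_mod_cast (by omega : d ≠ 0)
  have hne : ∃ x, x ∈ ratios (rp A h d) d ∧ x ≠ 0 := by
    have : ∃ a ∈ rp A h d, a ≠ 0 := by
      by_contra hcon
      push Not at hcon
      have := Multiset.sum_eq_zero hcon
      omega
    obtain ⟨a, ha, ha0⟩ := this
    refine ⟨_, Multiset.mem_map_of_mem _ ha, ?_⟩
    exact div_ne_zero (by exact_mod_cast ha0) hd
  obtain ⟨hp1, hp2⟩ := pick_mem hne
  obtain ⟨a, ha, hq⟩ := Multiset.mem_map.1 hp1
  have hapos : 0 < a := by
    apply Nat.pos_of_ne_zero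
    rintro rfl
    apply hp2
    rw [← hq]
    simp
  have had : a < d := by
    have hle : a ≤ d := h3 ▸ Multiset.single_le_sum (fun x _ => Nat.zero_le x) a ha
    refine lt_of_le_of_ne hle ?_
    rintro rfl
    exact h4 ha
  unfold wt
  rw [← hq]
  constructor
  · have := Rat.den_dvd (a : ℤ) (d : ℤ)
    rw [Rat.divInt_eq_div] at this
    exact_mod_cast this
  · have hden := ((a : ℚ) / d).den_pos
    by_contra hle
    have h1' : ((a : ℚ) / d).den = 1 := by omega
    have hint := Rat.coe_int_num_of_den_eq_one h1'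
    have hx : ((a : ℚ) / d) < 1 := by
      rw [div_lt_one (by exact_mod_cast (by omega : 0 < d))]
      exact_mod_cast had
    have hy : 0 < ((a : ℚ) / d) := by
      apply div_pos <;> exact_mod_cast (by omega)
    rw [← hint] at hx hy
    have e1 : (0 : ℤ) < ((a : ℚ) / d).num := by exact_mod_cast hy
    have e2 : ((a : ℚ) / d).num < (1 : ℤ) := by exact_mod_cast hx
    omega

/-- **The counting step.** -/
theorem count_rough {A : Set ℕ} {h K N y : ℕ}
    (hr : ∀ L, L ≤ N ^ (K + 1) → rep A h L ≤ K) :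
    ∀ j D : ℕ, 0 < D → ∀ T : Finset ℕ,
      (∀ n ∈ T, n ∈ mult A ∧ 0 < n ∧ n ≤ N ∧ D ∣ n) →
      (∀ n ∈ T, ∀ d, d ∣ n / D → 1 < d → y ≤ d) →
      (∀ n ∈ T, ∀ d, d ∣ n → y ≤ d → IsSum A h d) →
      (∀ n ∈ T, n / D < y ^ j) → T.card ≤ (K + 1) ^ j := by
  classical
  intro j
  induction j with
  | zero =>
    intro D hD T hT _ _ hlt
    have : T = ∅ := by
      apply eq_empty_of_forall_notMem
      intro n hn
      have h1 := hlt n hn
      rw [pow_zero, Nat.lt_one_iff, Nat.div_eq_zero_iff] at h1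
      have h2 := Nat.le_of_dvd (hT n hn).2.1 (hT n hn).2.2.2
      omega
    rw [this]
    simp
  | succ j ih =>
    intro D hD T hT hrough hsum hlt
    set T' := T.erase D with hT'
    have hquot : ∀ n ∈ T', 1 < n / D := by
      intro n hn
      obtain ⟨hne, hnT⟩ := mem_erase.1 hn
      obtain ⟨k, rfl⟩ := (hT n hnT).2.2.2
      rw [Nat.mul_div_cancel_left _ hD]
      have hpos := (hT _ hnT).2.1
      rcases Nat.lt_trichotomy k 1 with h1 | h1 | h1
      · have : k = 0 := by omega
        subst this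
        simp at hpos
      · subst h1
        simp at hne
      · exact h1
    have hIs : ∀ n ∈ T', IsSum A h (n / D) := by
      intro n hn
      have hnT := mem_of_mem_erase hn
      exact hsum n hnT _ (Nat.div_dvd_of_dvd (hT n hnT).2.2.2)
        (hrough n hnT _ dvd_rfl (hquot n hn))
    have himg : (T'.image fun n => wt A h (n / D)).card ≤ K := by
      refine le_trans ?_ (few_shapes (A := A) (h := h) (N := N) hD T'
        (fun n hn => hT n (mem_of_mem_erase hn)) (fun n => rp A h (n / D))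
        (fun n hn => ⟨(rp_spec (hIs n hn)).1, (rp_spec (hIs n hn)).2.1,
          (rp_spec (hIs n hn)).2.2.1⟩) hr)
      have : (T'.image fun n => wt A h (n / D))
          = (T'.image fun n => ratios (rp A h (n / D)) (n / D)).image (fun s => (pick s).den) := by
        rw [image_image]
        rfl
      rw [this]
      exact card_image_le
    have hfib : ∀ w ∈ T'.image fun n => wt A h (n / D),
        (T'.filter fun n => wt A h (n / D) = w).card ≤ (K + 1) ^ j := by
      intro w hw
      obtain ⟨m, hm, hmw⟩ := mem_image.1 hw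
      have hw1 : 1 < w := hmw ▸ (wt_spec (Nat.lt_of_succ_lt (hquot m hm)) (hIs m hm)).2
      have hwy : y ≤ w := by
        refine hrough m (mem_of_mem_erase hm) w ?_ hw1
        rw [← hmw]
        exact (wt_spec (Nat.lt_of_succ_lt (hquot m hm)) (hIs m hm)).1
      have hdvd : ∀ n ∈ T'.filter (fun n => wt A h (n / D) = w), w ∣ n / D := by
        intro n hn
        obtain ⟨h1, h2⟩ := mem_filter.1 hn
        rw [← h2]
        exact (wt_spec (Nat.lt_of_succ_lt (hquot n h1)) (hIs n h1)).1
      have hmem : ∀ n ∈ T'.filter (fun n => wt A h (n / D) = w), n ∈ T := fun n hn =>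
        mem_of_mem_erase (mem_filter.1 hn).1
      have hDw : ∀ n ∈ T'.filter (fun n => wt A h (n / D) = w), n / (D * w) = n / D / w :=
        fun n _ => (Nat.div_div_eq_div_mul n D w).symm
      refine ih (D * w) (by positivity) _ ?_ ?_ ?_ ?_
      · intro n hn
        obtain ⟨a1, a2, a3, a4⟩ := hT n (hmem n hn)
        refine ⟨a1, a2, a3, ?_⟩
        obtain ⟨k, hk⟩ := hdvd n hn
        refine ⟨k, ?_⟩
        rw [mul_assoc, ← hk, Nat.mul_div_cancel' a4]
      · intro n hn d hd hd1
        refine hrough n (hmem n hn) d ?_ hd1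
        rw [hDw n hn] at hd
        exact hd.trans (Nat.div_dvd_of_dvd (hdvd n hn))
      · intro n hn
        exact hsum n (hmem n hn)
      · intro n hn
        rw [hDw n hn]
        apply Nat.div_lt_of_lt_mul
        calc n / D < y ^ (j + 1) := hlt n (hmem n hn)
          _ = y * y ^ j := by rw [pow_succ]; ring
          _ ≤ w * y ^ j := Nat.mul_le_mul_right _ hwy
    have h1 : T'.card ≤ (K + 1) ^ j * K :=
      (card_le_mul_card_image T' _ hfib).trans (Nat.mul_le_mul_left _ himg)
    have h2 : T.card ≤ T'.card + 1 := by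
      have := card_le_card_sdiff_add_card (s := T) (t := {D})
      rw [hT', erase_eq]
      simpa using this
    have h3 : 1 ≤ (K + 1) ^ j := Nat.one_le_pow _ _ (by omega)
    calc T.card ≤ (K + 1) ^ j * K + (K + 1) ^ j := by omega
      _ = (K + 1) ^ (j + 1) := by ring

end Pool.Agent.H239.MM
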