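import Pool.Agent.H239.MM.A

/-!
# Bases with many multipliers: summing over the smooth parts
-/

set_option autoImplicit false

namespace Pool.Agent.H239.MM

open Finset

/-- the part of `n` composed of primes less than `y` -/
noncomputable def sp (y n : ℕ) : ℕ :=
  (n.factorization.filter (fun p => p < y)).prod (fun p k => p ^ k)

theorem sp_spec {y n : ℕ} (hn : 0 < n) :
    0 < sp y n ∧ sp y n ∣ n ∧ sp y n ∈ y.smoothNumbers ∧
      ∀ d, d ∣ n / sp y n → 1 < d → y ≤ d := by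
  set f : ℕ →₀ ℕ := n.factorization.filter (fun p => p < y) with hf
  have hD : sp y n = f.prod (fun p k => p ^ k) := rfl
  have hfp : ∀ p ∈ f.support, p.Prime := by
    intro p hp
    have : p ∈ n.factorization.support := by
      rw [hf, Finsupp.support_filter, mem_filter] at hp
      exact hp.1
    exact Nat.prime_of_mem_primeFactors this
  have hDf : (sp y n).factorization = f := Nat.prod_pow_factorization_eq_self hfp
  have hDpos : 0 < sp y n := by
    apply Nat.pos_of_ne_zero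
    rw [hD]
    apply Finset.prod_ne_zero_iff.2
    intro p hp
    exact pow_ne_zero _ (hfp p hp).ne_zero
  have hDn : sp y n ∣ n := by
    rw [← Nat.factorization_le_iff_dvd hDpos.ne' hn.ne', hDf, hf]
    intro p
    rw [Finsupp.filter_apply]
    split_ifs
    · exact le_rfl
    · exact Nat.zero_le _
  refine ⟨hDpos, hDn, ?_, ?_⟩
  · rw [Nat.mem_smoothNumbers']
    intro p hp hpd
    have h1 := (hp.dvd_iff_one_le_factorization hDpos.ne').1 hpd
    rw [hDf, hf, Finsupp.filter_apply] at h1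
    by_contra hlt
    rw [if_neg hlt] at h1
    omega
  · intro d hd hd1
    have hpp : d.minFac.Prime := Nat.minFac_prime (by omega)
    have hpd : d.minFac ∣ n / sp y n := (Nat.minFac_dvd d).trans hd
    by_contra hlt
    push Not at hlt
    have hpy : d.minFac < y := lt_of_le_of_lt (Nat.minFac_le (by omega)) hlt
    have hq0 : n / sp y n ≠ 0 := (Nat.div_pos (Nat.le_of_dvd hn hDn) hDpos).ne'
    have h1 : (n / sp y n).factorization d.minFac = 0 := by
      rw [Nat.factorization_div hDn, hDf, hf, Finsupp.tsub_apply, Finsupp.filter_apply,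
        if_pos hpy, Nat.sub_self]
    have h2 := (hpp.dvd_iff_one_le_factorization hq0).1 hpd
    omega

/-- `m ^ (-τ)` as a multiplicative function -/
noncomputable def pw (τ : ℝ) : ℕ →* ℝ where
  toFun m := (m : ℝ) ^ (-τ)
  map_one' := by simp
  map_mul' a b := by
    push_cast
    exact Real.mul_rpow (Nat.cast_nonneg a) (Nat.cast_nonneg b)

theorem pw_lt {τ : ℝ} (hτ : 0 < τ) {p : ℕ} (hp : p.Prime) : ‖pw τ p‖ < 1 := by
  show ‖(p : ℝ) ^ (-τ)‖ < 1
  rw [Real.norm_of_nonneg (Real.rpow_nonneg (Nat.cast_nonneg p) _)]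
  apply Real.rpow_lt_one_of_one_lt_of_neg
  · exact_mod_cast hp.one_lt
  · linarith

theorem sum_smooth_le {τ : ℝ} (hτ : 0 < τ) (y : ℕ) (S : Finset ℕ)
    (hS : ∀ n ∈ S, n ∈ y.smoothNumbers) :
    ∑ n ∈ S, (n : ℝ) ^ (-τ) ≤ ∏ p ∈ y.primesBelow, (1 - (p : ℝ) ^ (-τ))⁻¹ := by
  classical
  have h := EulerProduct.summable_and_hasSum_smoothNumbers_prod_primesBelow_geometric
    (f := pw τ) (fun hp => pw_lt hτ hp) y
  have h2 := h.2
  have h3 : ∑ n ∈ S.subtype (fun n => n ∈ y.smoothNumbers), pw τ (n : ℕ)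
      ≤ ∏ p ∈ y.primesBelow, (1 - pw τ p)⁻¹ := by
    refine sum_le_hasSum _ (fun i _ => ?_) h2
    exact Real.rpow_nonneg (Nat.cast_nonneg _) _
  have h4 : ∑ n ∈ S.subtype (fun n => n ∈ y.smoothNumbers), pw τ (n : ℕ)
      = ∑ n ∈ S, (n : ℝ) ^ (-τ) := by
    rw [← Finset.sum_subtype_of_mem (f := fun n : ℕ => (n : ℝ) ^ (-τ)) hS]
    rfl
  rw [← h4]
  exact h3

/-- **The finite inequality.** -/
theorem finite_rankin {A : Set ℕ} {h K N y : ℕ} {τ : ℝ} (hy : 2 ≤ y)
    (hτ : 0 < τ) (hKy : (K : ℝ) + 1 ≤ (y : ℝ) ^ τ)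
    (T : Finset ℕ) (hT : ∀ n ∈ T, n ∈ mult A ∧ 0 < n ∧ n ≤ N)
    (hsum : ∀ n ∈ T, ∀ d, d ∣ n → y ≤ d → IsSum A h d)
    (hr : ∀ L, L ≤ N ^ (K + 1) → rep A h L ≤ K) :
    (T.card : ℝ) ≤ ((y : ℝ) * N) ^ τ * ∏ p ∈ y.primesBelow, (1 - (p : ℝ) ^ (-τ))⁻¹ := by
  classical
  have hfib : ∀ D ∈ T.image (sp y), ((T.filter fun n => sp y n = D).card : ℝ)
      ≤ ((y : ℝ) * N) ^ τ * (D : ℝ) ^ (-τ) := by
    intro D hD
    obtain ⟨m, hm, hmD⟩ := mem_image.1 hD
    obtain ⟨s1, s2, -, -⟩ := sp_spec (y := y) (hT m hm).2.1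
    have hDpos : 0 < D := hmD ▸ s1
    have hDN : D ≤ N := (Nat.le_of_dvd (hT m hm).2.1 (hmD ▸ s2)).trans (hT m hm).2.2
    have hq : 0 < N / D := Nat.div_pos hDN hDpos
    have hspn : ∀ n ∈ T.filter (fun n => sp y n = D), sp y n = D := fun n hn =>
      (mem_filter.1 hn).2
    have hc := count_rough (y := y) hr (Nat.log y (N / D) + 1) D hDpos
      (T.filter fun n => sp y n = D) (by
        intro n hn
        obtain ⟨a1, a2, a3⟩ := hT n (mem_filter.1 hn).1
        exact ⟨a1, a2, a3, hspn n hn ▸ (sp_spec a2).2.1⟩) (by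
        intro n hn d hd hd1
        have a2 := (hT n (mem_filter.1 hn).1).2.1
        refine (sp_spec (y := y) a2).2.2.2 d ?_ hd1
        rw [hspn n hn]
        exact hd) (fun n hn => hsum n (mem_filter.1 hn).1) (by
        intro n hn
        refine lt_of_le_of_lt (Nat.div_le_div_right (hT n (mem_filter.1 hn).1).2.2) ?_
        exact Nat.lt_pow_succ_log_self (by omega) _)
    have hy0 : (0 : ℝ) < y := by exact_mod_cast (by omega : 0 < y)
    have hD0 : (0 : ℝ) < D := by exact_mod_cast hDpos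
    calc ((T.filter fun n => sp y n = D).card : ℝ)
        ≤ (((K + 1) ^ (Nat.log y (N / D) + 1) : ℕ) : ℝ) := by exact_mod_cast hc
      _ = ((K : ℝ) + 1) ^ (Nat.log y (N / D) + 1) := by push_cast; rfl
      _ ≤ ((y : ℝ) ^ τ) ^ (Nat.log y (N / D) + 1) := by
          apply pow_le_pow_left₀ (by positivity) hKy
      _ = ((y : ℝ) ^ (Nat.log y (N / D) + 1)) ^ τ := by
          rw [← Real.rpow_natCast, ← Real.rpow_mul hy0.le, mul_comm, Real.rpow_mul hy0.le,
            Real.rpow_natCast]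
      _ ≤ ((y : ℝ) * (N / D)) ^ τ := by
          apply Real.rpow_le_rpow (by positivity) _ hτ.le
          rw [pow_succ, mul_comm]
          apply mul_le_mul_of_nonneg_left _ hy0.le
          have h1 : y ^ Nat.log y (N / D) ≤ N / D := Nat.pow_log_le_self y hq.ne'
          calc ((y : ℝ)) ^ Nat.log y (N / D) = ((y ^ Nat.log y (N / D) : ℕ) : ℝ) := by push_cast; rfl
            _ ≤ ((N / D : ℕ) : ℝ) := by exact_mod_cast h1
            _ ≤ (N : ℝ) / D := Nat.cast_div_le
      _ = ((y : ℝ) * N) ^ τ * (D : ℝ) ^ (-τ) := by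
          rw [← mul_div_assoc, Real.div_rpow (by positivity) hD0.le, Real.rpow_neg hD0.le]
          rfl
  have hcard : (T.card : ℝ) = ∑ D ∈ T.image (sp y), ((T.filter fun n => sp y n = D).card : ℝ) := by
    rw [card_eq_sum_card_image (sp y) T]
    push_cast
    rfl
  rw [hcard]
  calc ∑ D ∈ T.image (sp y), ((T.filter fun n => sp y n = D).card : ℝ)
      ≤ ∑ D ∈ T.image (sp y), ((y : ℝ) * N) ^ τ * (D : ℝ) ^ (-τ) := sum_le_sum hfib
    _ = ((y : ℝ) * N) ^ τ * ∑ D ∈ T.image (sp y), (D : ℝ) ^ (-τ) := by rw [mul_sum]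
    _ ≤ _ := by
        apply mul_le_mul_of_nonneg_left _ (by positivity)
        apply sum_smooth_le hτ
        intro D hD
        obtain ⟨m, hm, rfl⟩ := mem_image.1 hD
        exact (sp_spec (hT m hm).2.1).2.2.1

end Pool.Agent.H239.MM
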