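import Pool.Agent.H239.MM.B

/-!
# Bases with many multipliers: growth of the representation function
-/

set_option autoImplicit false

namespace Pool.Agent.H239.MM

open Finset Filter

theorem sum_rpow_le {τ : ℝ} (h0 : 0 < τ) (h1 : τ < 1) (n : ℕ) :
    ∑ m ∈ range n, ((m : ℝ) + 1) ^ (-τ) ≤ (n : ℝ) ^ (1 - τ) / (1 - τ) := by
  have hp : 0 < 1 - τ := by linarith
  induction n with
  | zero => simp [Real.zero_rpow hp.ne']
  | succ n ih =>
    rw [sum_range_succ]
    have hn : (0 : ℝ) < (n : ℝ) + 1 := by positivity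
    have hs : -1 ≤ -(1 / ((n : ℝ) + 1)) := by
      have : 1 / ((n : ℝ) + 1) ≤ 1 := by
        rw [div_le_one hn]
        have : (0 : ℝ) ≤ n := Nat.cast_nonneg n
        linarith
      linarith
    have hb := rpow_one_add_le_one_add_mul_self hs hp.le (by linarith : 1 - τ ≤ 1)
    have e1 : 1 + -(1 / ((n : ℝ) + 1)) = n / ((n : ℝ) + 1) := by
      field_simp
      ring
    rw [e1, Real.div_rpow (Nat.cast_nonneg n) hn.le] at hb
    have hpos : 0 < ((n : ℝ) + 1) ^ (1 - τ) := Real.rpow_pos_of_pos hn _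
    rw [div_le_iff₀ hpos] at hb
    have e2 : ((n : ℝ) + 1) ^ (-τ) = ((n : ℝ) + 1) ^ (1 - τ) / ((n : ℝ) + 1) := by
      rw [show -τ = (1 - τ) - 1 by ring, Real.rpow_sub_one hn.ne']
    have e3 : ((n : ℝ) + 1) ^ (-τ) ≤
        (((n : ℝ) + 1) ^ (1 - τ) - (n : ℝ) ^ (1 - τ)) / (1 - τ) := by
      rw [e2, le_div_iff₀ hp]
      have : (1 + (1 - τ) * -(1 / ((n : ℝ) + 1))) * ((n : ℝ) + 1) ^ (1 - τ)
          = ((n : ℝ) + 1) ^ (1 - τ) - ((n : ℝ) + 1) ^ (1 - τ) / ((n : ℝ) + 1) * (1 - τ) := by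
        field_simp
        ring
      linarith
    calc _ ≤ (n : ℝ) ^ (1 - τ) / (1 - τ)
          + (((n : ℝ) + 1) ^ (1 - τ) - (n : ℝ) ^ (1 - τ)) / (1 - τ) := add_le_add ih e3
      _ = _ := by
          push_cast
          ring

/-- the constant in the exponent -/
noncomputable def cst (τ : ℝ) : ℝ := 1 / ((1 - (2 : ℝ) ^ (-τ)) * (1 - τ))

theorem prod_le {τ : ℝ} (h0 : 0 < τ) (h1 : τ < 1) (y : ℕ) :
    ∏ p ∈ y.primesBelow, (1 - (p : ℝ) ^ (-τ))⁻¹ ≤ Real.exp (cst τ * (y : ℝ) ^ (1 - τ)) := by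
  have h2 : (2 : ℝ) ^ (-τ) < 1 := Real.rpow_lt_one_of_one_lt_of_neg (by norm_num) (by linarith)
  have h3 : 0 < 1 - (2 : ℝ) ^ (-τ) := by linarith
  have step : ∀ p ∈ y.primesBelow, (1 - (p : ℝ) ^ (-τ))⁻¹
      ≤ Real.exp ((p : ℝ) ^ (-τ) / (1 - (2 : ℝ) ^ (-τ))) := by
    intro p hp
    have hpp : p.Prime := Nat.prime_of_mem_primesBelow hp
    have hp2 : (2 : ℝ) ≤ p := by exact_mod_cast hpp.two_le
    have hle : (p : ℝ) ^ (-τ) ≤ (2 : ℝ) ^ (-τ) :=
      Real.rpow_le_rpow_of_nonpos (by norm_num) hp2 (by linarith)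
    have hpos : 0 < (p : ℝ) ^ (-τ) := Real.rpow_pos_of_pos (by linarith) _
    set x := (p : ℝ) ^ (-τ) with hx
    have hx1 : 0 < 1 - x := by linarith
    calc (1 - x)⁻¹ = x / (1 - x) + 1 := by
          field_simp
          ring
      _ ≤ x / (1 - (2 : ℝ) ^ (-τ)) + 1 := by
          have : x / (1 - x) ≤ x / (1 - (2 : ℝ) ^ (-τ)) :=
            div_le_div_of_nonneg_left hpos.le h3 (by linarith)
          linarith
      _ ≤ _ := Real.add_one_le_exp _
  calc ∏ p ∈ y.primesBelow, (1 - (p : ℝ) ^ (-τ))⁻¹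
      ≤ ∏ p ∈ y.primesBelow, Real.exp ((p : ℝ) ^ (-τ) / (1 - (2 : ℝ) ^ (-τ))) := by
        refine prod_le_prod (fun p hp => ?_) step
        have hpp : p.Prime := Nat.prime_of_mem_primesBelow hp
        have : (p : ℝ) ^ (-τ) < 1 :=
          Real.rpow_lt_one_of_one_lt_of_neg (by exact_mod_cast hpp.one_lt) (by linarith)
        exact inv_nonneg.2 (by linarith)
    _ = Real.exp (∑ p ∈ y.primesBelow, (p : ℝ) ^ (-τ) / (1 - (2 : ℝ) ^ (-τ))) :=
        (Real.exp_sum _ _).symm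
    _ ≤ Real.exp (cst τ * (y : ℝ) ^ (1 - τ)) := by
        apply Real.exp_le_exp.2
        rw [← sum_div]
        have hs : ∑ p ∈ y.primesBelow, (p : ℝ) ^ (-τ) ≤ (y : ℝ) ^ (1 - τ) / (1 - τ) := by
          refine le_trans ?_ (sum_rpow_le h0 h1 y)
          have : ∑ p ∈ y.primesBelow, (p : ℝ) ^ (-τ)
              = ∑ m ∈ y.primesBelow.image (fun p : ℕ => p - 1), ((m : ℝ) + 1) ^ (-τ) := by
            rw [sum_image]
            · apply sum_congr rfl
              intro p hp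
              have hpp : p.Prime := Nat.prime_of_mem_primesBelow hp
              congr 1
              have := hpp.one_lt
              have h5 : p - 1 + 1 = p := by omega
              exact_mod_cast h5.symm
            · intro a ha b hb hab
              have h5 := (Nat.prime_of_mem_primesBelow (mem_coe.1 ha)).one_lt
              have h6 := (Nat.prime_of_mem_primesBelow (mem_coe.1 hb)).one_lt
              have h7 : a - 1 = b - 1 := hab
              omega
          rw [this]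
          apply sum_le_sum_of_subset_of_nonneg
          · intro m hm
            obtain ⟨p, hp, rfl⟩ := mem_image.1 hm
            have := Nat.lt_of_mem_primesBelow hp
            rw [mem_range]
            omega
          · intro m _ _
            positivity
        unfold cst
        rw [div_le_iff₀ h3]
        have hpos : 0 < 1 - τ := by linarith
        calc _ ≤ _ := hs
          _ = _ := by field_simp

theorem rep_mono {A B : Set ℕ} (hBA : B ⊆ A) (h n : ℕ) : rep B h n ≤ rep A h n :=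
  Set.ncard_le_ncard (fun _ hs => ⟨hs.1, fun a ha => hBA (hs.2.1 a ha), hs.2.2⟩) (reps_finite A h n)

theorem tendsto_log : Tendsto (fun N : ℕ => Real.log N) atTop atTop :=
  Real.tendsto_log_atTop.comp tendsto_natCast_atTop_atTop

/-- powers: `x ^ a + 1 ≤ x ^ b` eventually for `a < b`, `0 < b` -/
theorem ev_pow {a b : ℝ} (hab : a < b) (hb : 0 < b) : ∀ᶠ x : ℝ in atTop, x ^ a + 1 ≤ x ^ b := by
  have h1 : Tendsto (fun x : ℝ => x ^ (b - a)) atTop atTop :=
    tendsto_rpow_atTop (by linarith)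
  have h2 : Tendsto (fun x : ℝ => x ^ b) atTop atTop := tendsto_rpow_atTop hb
  filter_upwards [h1.eventually_ge_atTop 2, h2.eventually_ge_atTop 2, eventually_gt_atTop 0] with
    x hx1 hx2 hx0
  have e : x ^ b = x ^ a * x ^ (b - a) := by
    rw [← Real.rpow_add hx0]
    congr 1
    ring
  have hpos := Real.rpow_pos_of_pos hx0 a
  nlinarith

/-- **Growth.** -/
theorem growth {A B : Set ℕ} {h : ℕ} (hBA : B ⊆ A) {n0 : ℕ}
    (hb : ∀ d, n0 ≤ d → (∃ n ∈ mult B, 0 < n ∧ d ∣ n) → IsSum B h d) {δ c : ℝ}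
    (hδ : ∃ᶠ N : ℕ in atTop, (N : ℝ) ^ δ ≤ ((mult B ∩ Set.Icc 1 N).ncard : ℝ))
    (hc0 : 0 < c) (hc : c < δ) :
    ∃ᶠ n : ℕ in atTop, Real.log n ^ c ≤ rep A h n := by
  classical
  have hcard : ∀ N : ℕ, (mult B ∩ Set.Icc 1 N).ncard ≤ N := by
    intro N
    calc (mult B ∩ Set.Icc 1 N).ncard ≤ (Set.Icc 1 N).ncard :=
          Set.ncard_le_ncard Set.inter_subset_right (Set.finite_Icc 1 N)
      _ = N := by
          rw [← Finset.coe_Icc, Set.ncard_coe_finset, Nat.card_Icc]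
          rfl
  have hδ1 : δ ≤ 1 := by
    obtain ⟨N, hN, hN2⟩ := (hδ.and_eventually (eventually_ge_atTop 2)).exists
    by_contra hcon
    push Not at hcon
    have h1 : (1 : ℝ) < N := by exact_mod_cast (by omega : 1 < N)
    have h2 : (N : ℝ) ^ (1 : ℝ) < (N : ℝ) ^ δ := Real.rpow_lt_rpow_of_exponent_lt h1 hcon
    rw [Real.rpow_one] at h2
    have h3 : ((mult B ∩ Set.Icc 1 N).ncard : ℝ) ≤ N := by exact_mod_cast hcard N
    linarith
  set τ := (c + δ) / 2 with hτ
  have hτc : c < τ := by rw [hτ]; linarith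
  have hτδ : τ < δ := by rw [hτ]; linarith
  have hτ0 : 0 < τ := hc0.trans hτc
  have hτ1 : τ < 1 := by linarith
  have hq : 0 < 1 - τ := by linarith
  have hqc : 0 < 1 - c := by linarith
  have hcmp : c / (1 - c) < τ / (1 - τ) := by
    rw [div_lt_div_iff₀ hqc hq]
    nlinarith
  set κ := (c / (1 - c) + τ / (1 - τ)) / 2 with hκ
  have hκ1 : c / (1 - c) < κ := by rw [hκ]; linarith
  have hκ2 : κ < τ / (1 - τ) := by rw [hκ]; linarith
  have hκ0 : 0 < κ := lt_trans (div_pos hc0 hqc) hκ1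
  have hκc : c < κ * (1 - c) := (div_lt_iff₀ hqc).1 hκ1
  have hBB : κ / τ < 1 / (1 - τ) := by
    rw [div_lt_div_iff₀ hτ0 hq]
    have := (lt_div_iff₀ hq).1 hκ2
    linarith
  obtain ⟨b, hb1, hb2⟩ := exists_between hBB
  obtain ⟨b', hb3, hb4⟩ := exists_between hb2
  have hb0 : 0 < b := lt_trans (div_pos hκ0 hτ0) hb1
  have hκb : κ < b * τ := (div_lt_iff₀ hτ0).1 hb1
  have hθ : b' * (1 - τ) < 1 := (lt_div_iff₀ hq).1 hb4
  have hb'0 : 0 < b' := hb0.trans hb3
  set θ := b' * (1 - τ) with hθdef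
  -- eventual inequalities in `x`
  have ev1 : ∀ᶠ x : ℝ in atTop, (2 : ℝ) ≤ x ^ b ∧ (n0 : ℝ) ≤ x ^ b :=
    ((tendsto_rpow_atTop hb0).eventually_ge_atTop 2).and
      ((tendsto_rpow_atTop hb0).eventually_ge_atTop (n0 : ℝ))
  have ev2 : ∀ᶠ x : ℝ in atTop, x ^ κ + 1 ≤ x ^ (b * τ) := ev_pow hκb (by positivity)
  have ev3 : ∀ᶠ x : ℝ in atTop, x ^ b + 1 ≤ x ^ b' := ev_pow hb3 hb'0
  have ev4 : ∀ᶠ x : ℝ in atTop, τ * (b' * Real.log x) + cst τ * x ^ θ < (δ - τ) * x := by
    have o1 := (Real.isLittleO_log_id_atTop.const_mul_left (τ * b')).def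
      (show (0 : ℝ) < (δ - τ) / 4 by linarith)
    have o2 := (tendsto_rpow_atTop (show 0 < 1 - θ by linarith)).eventually_ge_atTop
      (4 * cst τ / (δ - τ))
    filter_upwards [o1, o2, eventually_gt_atTop 0] with x hx hx2 hx0
    rw [id, Real.norm_eq_abs, Real.norm_eq_abs, abs_of_pos hx0] at hx
    have h7 := (le_abs_self _).trans hx
    have h8 : x = x ^ θ * x ^ (1 - θ) := by
      rw [← Real.rpow_add hx0, show θ + (1 - θ) = (1 : ℝ) by ring, Real.rpow_one]
    have h9 : 0 < x ^ θ := Real.rpow_pos_of_pos hx0 θ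
    have hδτ : 0 < δ - τ := by linarith
    rw [div_le_iff₀ hδτ] at hx2
    have h10 : cst τ * x ^ θ ≤ (δ - τ) / 4 * x := by
      calc cst τ * x ^ θ = x ^ θ * (4 * cst τ) / 4 := by ring
        _ ≤ x ^ θ * (x ^ (1 - θ) * (δ - τ)) / 4 := by
            apply div_le_div_of_nonneg_right _ (by norm_num)
            exact mul_le_mul_of_nonneg_left hx2 h9.le
        _ = (δ - τ) / 4 * (x ^ θ * x ^ (1 - θ)) := by ring
        _ = (δ - τ) / 4 * x := by rw [← h8]
    nlinarith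
  have evK : ∀ R : ℝ, ∀ᶠ x : ℝ in atTop, R < x ^ κ := fun R =>
    (tendsto_rpow_atTop hκ0).eventually_gt_atTop R
  rw [frequently_atTop]
  intro M
  set R : ℝ := ∑ n ∈ range (M + 1), (rep A h n : ℝ) with hR
  have evall := tendsto_log.eventually (ev1.and (ev2.and (ev3.and (ev4.and
    ((evK R).and (eventually_ge_atTop 1))))))
  obtain ⟨N, hN, hev, hN2⟩ := (hδ.and_eventually (evall.and (eventually_ge_atTop 2))).exists
  set x := Real.log N with hx
  obtain ⟨⟨e1, e1'⟩, e2, e3, e4, e5, e6⟩ := hev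
  have hx0 : 0 < x := by linarith
  have hN0 : (0 : ℝ) < N := by exact_mod_cast (by omega : 0 < N)
  set K := ⌊x ^ κ⌋₊ with hK
  set y := ⌈x ^ b⌉₊ with hy
  have hxb : x ^ b ≤ y := Nat.le_ceil _
  have hy2 : 2 ≤ y := by
    have : (2 : ℝ) ≤ y := e1.trans hxb
    exact_mod_cast this
  have hyn : n0 ≤ y := by
    have : (n0 : ℝ) ≤ y := e1'.trans hxb
    exact_mod_cast this
  have hyle : (y : ℝ) ≤ x ^ b' :=
    (Nat.ceil_lt_add_one (Real.rpow_nonneg hx0.le b)).le.trans e3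
  have hKle : (K : ℝ) ≤ x ^ κ := Nat.floor_le (Real.rpow_nonneg hx0.le κ)
  have hKlt : x ^ κ < (K : ℝ) + 1 := Nat.lt_floor_add_one _
  have hy0 : (0 : ℝ) < y := by exact_mod_cast (by omega : 0 < y)
  have hKy : (K : ℝ) + 1 ≤ (y : ℝ) ^ τ := by
    calc (K : ℝ) + 1 ≤ x ^ κ + 1 := by linarith
      _ ≤ x ^ (b * τ) := e2
      _ = (x ^ b) ^ τ := Real.rpow_mul hx0.le b τ
      _ ≤ (y : ℝ) ^ τ := Real.rpow_le_rpow (Real.rpow_nonneg hx0.le b) hxb hτ0.le
  have hL : ∃ L, L ≤ N ^ (K + 1) ∧ K + 1 ≤ rep B h L := by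
    by_contra hcon
    push Not at hcon
    have hfin : (mult B ∩ Set.Icc 1 N).Finite := (Set.finite_Icc 1 N).inter_of_right _
    have hmem : ∀ n ∈ hfin.toFinset, n ∈ mult B ∧ 0 < n ∧ n ≤ N := by
      intro n hn
      obtain ⟨a1, a2⟩ := hfin.mem_toFinset.1 hn
      exact ⟨a1, a2.1, a2.2⟩
    have hfr := finite_rankin (τ := τ) hy2 hτ0 hKy hfin.toFinset hmem
      (fun n hn d hdn hdy => hb d (hyn.trans hdy) ⟨n, (hmem n hn).1, (hmem n hn).2.1, hdn⟩)
      (fun L hL => by have := hcon L hL; omega)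
    rw [← Set.ncard_eq_toFinset_card _ hfin] at hfr
    have h8 : ((y : ℝ) * N) ^ τ * ∏ p ∈ y.primesBelow, (1 - (p : ℝ) ^ (-τ))⁻¹ < (N : ℝ) ^ δ := by
      calc ((y : ℝ) * N) ^ τ * ∏ p ∈ y.primesBelow, (1 - (p : ℝ) ^ (-τ))⁻¹
          ≤ ((y : ℝ) * N) ^ τ * Real.exp (cst τ * (y : ℝ) ^ (1 - τ)) :=
            mul_le_mul_of_nonneg_left (prod_le hτ0 hτ1 y) (by positivity)
        _ = Real.exp (τ * (Real.log y + x) + cst τ * (y : ℝ) ^ (1 - τ)) := by
            have h10 : ((y : ℝ) * N) ^ τ = Real.exp (τ * (Real.log y + x)) := by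
              rw [hx, ← Real.log_mul hy0.ne' hN0.ne', mul_comm τ,
                ← Real.rpow_def_of_pos (by positivity)]
            rw [Real.exp_add, h10]
        _ < Real.exp (x * δ) := by
            apply Real.exp_lt_exp.2
            have l1 : Real.log y ≤ b' * Real.log x := by
              rw [← Real.log_rpow hx0]
              exact Real.log_le_log hy0 hyle
            have l2 : (y : ℝ) ^ (1 - τ) ≤ x ^ θ := by
              rw [hθdef, Real.rpow_mul hx0.le]
              exact Real.rpow_le_rpow hy0.le hyle hq.le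
            have l3 : 0 ≤ cst τ := by
              unfold cst
              have : (2 : ℝ) ^ (-τ) < 1 :=
                Real.rpow_lt_one_of_one_lt_of_neg (by norm_num) (by linarith)
              have : 0 < 1 - (2 : ℝ) ^ (-τ) := by linarith
              positivity
            have l4 : cst τ * (y : ℝ) ^ (1 - τ) ≤ cst τ * x ^ θ :=
              mul_le_mul_of_nonneg_left l2 l3
            have l5 : τ * Real.log y ≤ τ * (b' * Real.log x) :=
              mul_le_mul_of_nonneg_left l1 hτ0.le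
            nlinarith
        _ = (N : ℝ) ^ δ := by
            rw [hx, ← Real.rpow_def_of_pos hN0]
    linarith
  obtain ⟨L, hL1, hL2⟩ := hL
  have hL3 : (K : ℝ) + 1 ≤ rep A h L := by exact_mod_cast hL2.trans (rep_mono hBA h L)
  have hLM : M < L := by
    by_contra hle
    push Not at hle
    have : (rep A h L : ℝ) ≤ R := by
      rw [hR]
      exact single_le_sum (f := fun n => (rep A h n : ℝ)) (fun _ _ => Nat.cast_nonneg _)
        (mem_range.2 (by omega))
    linarith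
  refine ⟨L, hLM.le, le_trans ?_ hL3⟩
  have hL0 : (0 : ℝ) < L := by exact_mod_cast (by omega : 0 < L)
  have hlog : Real.log L ≤ ((K : ℝ) + 1) * x := by
    have h9 : Real.log L ≤ Real.log ((N : ℝ) ^ (K + 1)) := by
      apply Real.log_le_log hL0
      exact_mod_cast hL1
    rw [Real.log_pow] at h9
    push_cast at h9
    exact h9
  have hlog0 : 0 ≤ Real.log L := Real.log_natCast_nonneg L
  set k : ℝ := (K : ℝ) + 1 with hk
  have hk0 : 0 < k := by positivity
  have hk1 : x ^ c ≤ k ^ (1 - c) := by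
    calc x ^ c ≤ x ^ (κ * (1 - c)) := Real.rpow_le_rpow_of_exponent_le e6 hκc.le
      _ = (x ^ κ) ^ (1 - c) := Real.rpow_mul hx0.le _ _
      _ ≤ k ^ (1 - c) := Real.rpow_le_rpow (Real.rpow_nonneg hx0.le κ) hKlt.le hqc.le
  calc Real.log L ^ c ≤ (k * x) ^ c := Real.rpow_le_rpow hlog0 hlog hc0.le
    _ = k ^ c * x ^ c := Real.mul_rpow hk0.le hx0.le
    _ ≤ k ^ c * k ^ (1 - c) := mul_le_mul_of_nonneg_left hk1 (Real.rpow_nonneg hk0.le c)
    _ = k := by
        rw [← Real.rpow_add hk0, show c + (1 - c) = (1 : ℝ) by ring, Real.rpow_one]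

end Pool.Agent.H239.MM
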