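import Pool.Agent.H239.MM.C

/-!
# Multiplicatively closed bases
-/

set_option autoImplicit false

namespace Pool.Agent.H239.MM

open Finset Filter

theorem exists_fun {h d N : ℕ} {B : Set ℕ} (hd : d ≤ N) (H : IsSum B h d) :
    ∃ f : Fin h → ℕ, (∀ i, f i ∈ B ∩ Set.Icc 0 N) ∧ ∑ i, f i = d := by
  obtain ⟨s, h1, h2, h3, -⟩ := H
  obtain ⟨l, rfl⟩ := Quot.exists_rep s
  change Multiset.card (l : Multiset ℕ) = h at h1
  change (l : Multiset ℕ).sum = d at h3
  rw [Multiset.coe_card] at h1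
  rw [Multiset.sum_coe] at h3
  subst h1
  refine ⟨fun i => l.get i, fun i => ⟨h2 _ (List.get_mem l i), Nat.zero_le _, ?_⟩, ?_⟩
  · have : l.get i ≤ l.sum := List.single_le_sum (fun x _ => Nat.zero_le x) _ (List.get_mem l i)
    show l.get i ≤ N
    omega
  · rw [← h3]
    simp

theorem basis_card {B : Set ℕ} {h n0 : ℕ} (hb : ∀ d, n0 ≤ d → IsSum B h d) (N : ℕ) :
    N + 1 - n0 ≤ (B ∩ Set.Icc 0 N).ncard ^ h := by
  classical
  have hfin : (B ∩ Set.Icc 0 N).Finite := (Set.finite_Icc 0 N).inter_of_right _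
  rw [Set.ncard_eq_toFinset_card _ hfin]
  have h1 : Icc n0 N ⊆ (Fintype.piFinset fun _ : Fin h => hfin.toFinset).image
      (fun f => ∑ i, f i) := by
    intro d hd
    obtain ⟨hd1, hd2⟩ := mem_Icc.1 hd
    obtain ⟨f, hf1, hf2⟩ := exists_fun hd2 (hb d hd1)
    refine mem_image.2 ⟨f, ?_, hf2⟩
    rw [Fintype.mem_piFinset]
    intro i
    exact hfin.mem_toFinset.2 (hf1 i)
  have h2 := (card_le_card h1).trans card_image_le
  rw [Nat.card_Icc, Fintype.card_piFinset] at h2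
  simpa using h2

theorem card_le_mult {B : Set ℕ} (C : Finset ℕ)
    (hC : ∀ b ∈ B, b ≠ 0 → ∃ c ∈ C, ∃ m ∈ mult B, b = c * m) (N : ℕ) :
    (B ∩ Set.Icc 0 N).ncard ≤ C.card * (mult B ∩ Set.Icc 1 N).ncard + 1 := by
  classical
  have hfin : (mult B ∩ Set.Icc 1 N).Finite := (Set.finite_Icc 1 N).inter_of_right _
  have hsub : B ∩ Set.Icc 0 N ⊆
      (insert 0 ((C ×ˢ hfin.toFinset).image fun p => p.1 * p.2) : Finset ℕ) := by
    rintro b ⟨hb, -, hbN⟩
    rw [mem_coe, mem_insert]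
    by_cases hb0 : b = 0
    · exact Or.inl hb0
    · right
      obtain ⟨c, hc, m, hm, rfl⟩ := hC b hb hb0
      refine mem_image.2 ⟨(c, m), mem_product.2 ⟨hc, hfin.mem_toFinset.2 ⟨hm, ?_, ?_⟩⟩, rfl⟩
      · by_contra h
        have : m = 0 := by omega
        subst this
        simp at hb0
      · have hc0 : 0 < c := by
          apply Nat.pos_of_ne_zero
          rintro rfl
          simp at hb0
        calc m ≤ c * m := Nat.le_mul_of_pos_left m hc0
          _ ≤ N := hbN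
  calc (B ∩ Set.Icc 0 N).ncard
      ≤ ((insert 0 ((C ×ˢ hfin.toFinset).image fun p => p.1 * p.2) : Finset ℕ) : Set ℕ).ncard :=
        Set.ncard_le_ncard hsub (Finset.finite_toSet _)
    _ = (insert 0 ((C ×ˢ hfin.toFinset).image fun p => p.1 * p.2) : Finset ℕ).card :=
        Set.ncard_coe_finset _
    _ ≤ ((C ×ˢ hfin.toFinset).image fun p => p.1 * p.2).card + 1 := card_insert_le _ _
    _ ≤ (C ×ˢ hfin.toFinset).card + 1 := by
        have := card_image_le (s := C ×ˢ hfin.toFinset) (f := fun p => p.1 * p.2)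
        omega
    _ = _ := by rw [card_product, Set.ncard_eq_toFinset_card _ hfin]

/-- many multipliers -/
theorem many_mult {B : Set ℕ} {h n0 : ℕ} (hh : 1 ≤ h) (hb : ∀ d, n0 ≤ d → IsSum B h d)
    (C : Finset ℕ) (hC : ∀ b ∈ B, b ≠ 0 → ∃ c ∈ C, ∃ m ∈ mult B, b = c * m) {δ : ℝ}
    (hδ0 : 0 < δ) (hδ : δ < 1 / h) :
    ∀ᶠ N : ℕ in atTop, (N : ℝ) ^ δ ≤ ((mult B ∩ Set.Icc 1 N).ncard : ℝ) := by
  have hh0 : (0 : ℝ) < h := by exact_mod_cast hh
  have hδh : δ * h < 1 := (lt_div_iff₀ hh0).1 hδ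
  obtain ⟨δ', h1, h2⟩ := exists_between hδ
  have hδ'h : δ' * h < 1 := (lt_div_iff₀ hh0).1 h2
  have hδ'0 : 0 < δ' := hδ0.trans h1
  -- `x^{δ' h} + n0 ≤ x`, `|C| x^δ + 1 ≤ x^δ'`
  have e1 : ∀ᶠ x : ℝ in atTop, x ^ (δ' * h) + n0 ≤ x := by
    have t1 : Tendsto (fun x : ℝ => x ^ (1 - δ' * h)) atTop atTop :=
      tendsto_rpow_atTop (by linarith)
    have t2 : Tendsto (fun x : ℝ => x ^ (δ' * h)) atTop atTop :=
      tendsto_rpow_atTop (by positivity)
    filter_upwards [t1.eventually_ge_atTop 2, t2.eventually_ge_atTop (n0 : ℝ),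
      eventually_gt_atTop 0] with x hx1 hx2 hx0
    have e : x = x ^ (δ' * h) * x ^ (1 - δ' * h) := by
      rw [← Real.rpow_add hx0, show δ' * h + (1 - δ' * h) = (1 : ℝ) by ring, Real.rpow_one]
    have hpos := Real.rpow_pos_of_pos hx0 (δ' * h)
    nlinarith
  have e2 : ∀ᶠ x : ℝ in atTop, (C.card : ℝ) * x ^ δ + 1 < x ^ δ' := by
    have t1 : Tendsto (fun x : ℝ => x ^ (δ' - δ)) atTop atTop :=
      tendsto_rpow_atTop (by linarith)
    have t2 : Tendsto (fun x : ℝ => x ^ δ) atTop atTop := tendsto_rpow_atTop hδ0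
    filter_upwards [t1.eventually_ge_atTop (C.card + 2 : ℝ), t2.eventually_ge_atTop 1,
      eventually_gt_atTop 0] with x hx1 hx2 hx0
    have e : x ^ δ' = x ^ δ * x ^ (δ' - δ) := by
      rw [← Real.rpow_add hx0]
      congr 1
      ring
    nlinarith
  filter_upwards [tendsto_natCast_atTop_atTop.eventually e1,
    tendsto_natCast_atTop_atTop.eventually e2, eventually_ge_atTop 1] with N hN1 hN2 hN3
  have hN0 : (0 : ℝ) < N := by exact_mod_cast hN3
  have hc1 := basis_card hb N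
  have hc2 := card_le_mult C hC N
  have hn0 : n0 ≤ N := by
    have : (n0 : ℝ) ≤ N := by
      have := Real.rpow_pos_of_pos hN0 (δ' * h)
      linarith
    exact_mod_cast this
  have hB : (N : ℝ) ^ δ' ≤ ((B ∩ Set.Icc 0 N).ncard : ℝ) := by
    by_contra hcon
    push Not at hcon
    have h3 : (((B ∩ Set.Icc 0 N).ncard : ℝ)) ^ h < ((N : ℝ) ^ δ') ^ h :=
      pow_lt_pow_left₀ hcon (Nat.cast_nonneg _) (by omega)
    have h4 : ((N : ℝ) ^ δ') ^ h = (N : ℝ) ^ (δ' * h) := by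
      rw [← Real.rpow_natCast, ← Real.rpow_mul hN0.le]
    have h5 : ((N + 1 - n0 : ℕ) : ℝ) ≤ (((B ∩ Set.Icc 0 N).ncard : ℝ)) ^ h := by
      exact_mod_cast hc1
    rw [Nat.cast_sub (by omega)] at h5
    push_cast at h5
    linarith
  have h6 : ((B ∩ Set.Icc 0 N).ncard : ℝ) ≤ C.card * ((mult B ∩ Set.Icc 1 N).ncard : ℝ) + 1 := by
    exact_mod_cast hc2
  by_contra hcon
  push Not at hcon
  have h7 : (C.card : ℝ) * ((mult B ∩ Set.Icc 1 N).ncard : ℝ) ≤ C.card * (N : ℝ) ^ δ :=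
    mul_le_mul_of_nonneg_left hcon.le (Nat.cast_nonneg _)
  linarith

/-- Growth for multiplicatively closed bases. -/
theorem growth_closed {A B : Set ℕ} {h n0 : ℕ} (hh : 1 ≤ h) (hBA : B ⊆ A)
    (hb : ∀ d, n0 ≤ d → IsSum B h d)
    (C : Finset ℕ) (hC : ∀ b ∈ B, b ≠ 0 → ∃ c ∈ C, ∃ m ∈ mult B, b = c * m) {c : ℝ}
    (hc0 : 0 < c) (hc : c < 1 / h) : ∃ᶠ n : ℕ in atTop, Real.log n ^ c ≤ rep A h n := by
  obtain ⟨δ, h1, h2⟩ := exists_between hc
  exact growth hBA (fun d hd _ => hb d hd)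
    (many_mult hh hb C hC (hc0.trans h1) h2).frequently hc0 h1

end Pool.Agent.H239.MM
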