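import Pool.Agent.H239.MM.D

/-!
# Unboundedness for thinner sets of multipliers
-/

set_option autoImplicit false

namespace Pool.Agent.H239.MM

open Finset Filter

theorem prod_le' {τ : ℝ} (h0 : 0 < τ) (y : ℕ) :
    ∏ p ∈ y.primesBelow, (1 - (p : ℝ) ^ (-τ))⁻¹
      ≤ Real.exp (y * (1 / (τ * Real.log 2))) := by
  have hl2 : 0 < Real.log 2 := Real.log_pos (by norm_num)
  have h2 : (2 : ℝ) ^ (-τ) < 1 := Real.rpow_lt_one_of_one_lt_of_neg (by norm_num) (by linarith)
  have h3 : 0 < 1 - (2 : ℝ) ^ (-τ) := by linarith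
  set u := τ * Real.log 2 with hu
  have hu0 : 0 < u := by positivity
  have e1 : (2 : ℝ) ^ (-τ) = Real.exp (-u) := by
    rw [Real.rpow_def_of_pos (by norm_num), hu]
    congr 1
    ring
  have e2 : (1 - (2 : ℝ) ^ (-τ))⁻¹ ≤ 1 / u + 1 := by
    have h5 : Real.exp (-u) ≤ 1 / (u + 1) := by
      rw [Real.exp_neg, ← one_div]
      exact one_div_le_one_div_of_le (by linarith) (Real.add_one_le_exp u)
    have h6 : u / (u + 1) ≤ 1 - (2 : ℝ) ^ (-τ) := by
      rw [e1]
      have : u / (u + 1) = 1 - 1 / (u + 1) := by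
        field_simp
        ring
      linarith
    calc (1 - (2 : ℝ) ^ (-τ))⁻¹ ≤ (u / (u + 1))⁻¹ := by
          apply inv_anti₀ (by positivity) h6
      _ = 1 / u + 1 := by
          field_simp
          ring
  calc ∏ p ∈ y.primesBelow, (1 - (p : ℝ) ^ (-τ))⁻¹
      ≤ ∏ _p ∈ y.primesBelow, Real.exp (1 / u) := by
        refine prod_le_prod (fun p hp => ?_) (fun p hp => ?_)
        · have hpp : p.Prime := Nat.prime_of_mem_primesBelow hp
          have : (p : ℝ) ^ (-τ) < 1 :=
            Real.rpow_lt_one_of_one_lt_of_neg (by exact_mod_cast hpp.one_lt) (by linarith)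
          exact inv_nonneg.2 (by linarith)
        · have hpp : p.Prime := Nat.prime_of_mem_primesBelow hp
          have hp2 : (2 : ℝ) ≤ p := by exact_mod_cast hpp.two_le
          have hle : (p : ℝ) ^ (-τ) ≤ (2 : ℝ) ^ (-τ) :=
            Real.rpow_le_rpow_of_nonpos (by norm_num) hp2 (by linarith)
          calc (1 - (p : ℝ) ^ (-τ))⁻¹ ≤ (1 - (2 : ℝ) ^ (-τ))⁻¹ :=
                inv_anti₀ h3 (by linarith)
            _ ≤ 1 / u + 1 := e2
            _ ≤ Real.exp (1 / u) := Real.add_one_le_exp _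
    _ = Real.exp (1 / u) ^ y.primesBelow.card := by rw [prod_const]
    _ = Real.exp (y.primesBelow.card * (1 / u)) := by rw [Real.exp_nat_mul]
    _ ≤ Real.exp (y * (1 / u)) := by
        apply Real.exp_le_exp.2
        apply mul_le_mul_of_nonneg_right _ (by positivity)
        have : y.primesBelow.card ≤ y := by
          rw [Nat.primesBelow]
          exact (card_filter_le _ _).trans (by simp)
        exact_mod_cast this

/-- **Unboundedness** for `N ^ (C / log log N)` multipliers. -/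
theorem unbounded {A B : Set ℕ} {h : ℕ} (hBA : B ⊆ A) {n0 : ℕ}
    (hb : ∀ d, n0 ≤ d → (∃ n ∈ mult B, 0 < n ∧ d ∣ n) → IsSum B h d)
    (hG : ∀ C : ℝ, ∃ᶠ N : ℕ in atTop, (N : ℝ) ^ (C / Real.log (Real.log N))
      ≤ ((mult B ∩ Set.Icc 1 N).ncard : ℝ)) :
    ∀ K : ℕ, ∃ n, K < rep A h n := by
  classical
  by_contra hcon
  push Not at hcon
  obtain ⟨K0, hK0⟩ := hcon
  set K := K0 + 1 with hK
  have hKr : ∀ n, rep B h n ≤ K := fun n => (rep_mono hBA h n).trans ((hK0 n).trans (by omega))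
  set k := Real.log ((K : ℝ) + 1) with hk
  have hkpos : 0 < k := Real.log_pos (by
    have : (1 : ℝ) ≤ K := by exact_mod_cast (by omega : 1 ≤ K)
    linarith)
  have hl2 : 0 < Real.log 2 := Real.log_pos (by norm_num)
  -- the exponents: `x = log N`, `y = ⌈x ^ (1/2)⌉`, `τ = k / log y`
  have ev0 : ∀ᶠ x : ℝ in atTop, (2 : ℝ) ≤ x ^ (1 / 2 : ℝ) ∧ (n0 : ℝ) ≤ x ^ (1 / 2 : ℝ) :=
    ((tendsto_rpow_atTop (by norm_num)).eventually_ge_atTop 2).and
      ((tendsto_rpow_atTop (by norm_num)).eventually_ge_atTop (n0 : ℝ))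
  have ev1 : ∀ᶠ x : ℝ in atTop, k * Real.log x +
      2 * x ^ (1 / 2 : ℝ) * (Real.log x / (k * Real.log 2)) * Real.log x < x := by
    have o1 := (Real.isLittleO_log_id_atTop.const_mul_left k).def
      (show (0 : ℝ) < 1 / 4 by norm_num)
    have o2 := ((isLittleO_log_rpow_rpow_atTop (s := 1 / 2) 2 (by norm_num)).const_mul_left
      (2 / (k * Real.log 2))).def (show (0 : ℝ) < 1 / 4 by norm_num)
    filter_upwards [o1, o2, eventually_gt_atTop 1] with x hx hx2 hx0
    have hx0' : 0 < x := by linarith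
    rw [id, Real.norm_eq_abs, Real.norm_eq_abs, abs_of_pos hx0'] at hx
    have h7 := (le_abs_self _).trans hx
    rw [Real.norm_eq_abs, Real.norm_eq_abs, abs_of_pos (Real.rpow_pos_of_pos hx0' _)] at hx2
    have h8 := (le_abs_self _).trans hx2
    have h9 : 0 < x ^ (1 / 2 : ℝ) := Real.rpow_pos_of_pos hx0' _
    have h10 : x = x ^ (1 / 2 : ℝ) * x ^ (1 / 2 : ℝ) := by
      rw [← Real.rpow_add hx0', show (1 / 2 : ℝ) + 1 / 2 = 1 by norm_num, Real.rpow_one]
    rw [show (2 : ℝ) = ((2 : ℕ) : ℝ) by norm_num, Real.rpow_natCast] at h8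
    have h11 : 2 * x ^ (1 / 2 : ℝ) * (Real.log x / (k * Real.log 2)) * Real.log x
        ≤ 1 / 4 * x := by
      calc 2 * x ^ (1 / 2 : ℝ) * (Real.log x / (k * Real.log 2)) * Real.log x
          = x ^ (1 / 2 : ℝ) * (2 / (k * Real.log 2) * Real.log x ^ 2) := by ring
        _ ≤ x ^ (1 / 2 : ℝ) * (1 / 4 * x ^ (1 / 2 : ℝ)) :=
            mul_le_mul_of_nonneg_left (by simpa using h8) h9.le
        _ = 1 / 4 * (x ^ (1 / 2 : ℝ) * x ^ (1 / 2 : ℝ)) := by ring
        _ = 1 / 4 * x := by rw [← h10]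
    linarith
  have ev2 : ∀ᶠ x : ℝ in atTop, x ^ (1 / 2 : ℝ) + 1 ≤ 2 * x ^ (1 / 2 : ℝ) ∧
      2 * x ^ (1 / 2 : ℝ) ≤ x := by
    have t1 := tendsto_rpow_atTop (show (0 : ℝ) < 1 / 2 by norm_num)
    filter_upwards [t1.eventually_ge_atTop 2, eventually_gt_atTop 0] with x hx1 hx0
    have h10 : x = x ^ (1 / 2 : ℝ) * x ^ (1 / 2 : ℝ) := by
      rw [← Real.rpow_add hx0, show (1 / 2 : ℝ) + 1 / 2 = 1 by norm_num, Real.rpow_one]
    constructor
    · linarith
    · nlinarith
  have evall := tendsto_log.eventually (ev0.and (ev1.and (ev2.and (eventually_gt_atTop 1))))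
  obtain ⟨N, hN, hev, hN2⟩ :=
    ((hG (2 * k + 1)).and_eventually (evall.and (eventually_ge_atTop 2))).exists
  set x := Real.log N with hx
  obtain ⟨⟨e1, e1'⟩, e2, ⟨e3, e3'⟩, e4⟩ := hev
  have hx0 : 0 < x := by linarith
  have hN0 : (0 : ℝ) < N := by exact_mod_cast (by omega : 0 < N)
  have hlx : 0 < Real.log x := Real.log_pos e4
  set y := ⌈x ^ (1 / 2 : ℝ)⌉₊ with hy
  have hxb : x ^ (1 / 2 : ℝ) ≤ y := Nat.le_ceil _
  have hy2 : 2 ≤ y := by
    have : (2 : ℝ) ≤ y := e1.trans hxb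
    exact_mod_cast this
  have hyn : n0 ≤ y := by
    have : (n0 : ℝ) ≤ y := e1'.trans hxb
    exact_mod_cast this
  have hyle : (y : ℝ) ≤ 2 * x ^ (1 / 2 : ℝ) :=
    (Nat.ceil_lt_add_one (Real.rpow_nonneg hx0.le _)).le.trans e3
  have hyx : (y : ℝ) ≤ x := hyle.trans e3'
  have hy0 : (0 : ℝ) < y := by exact_mod_cast (by omega : 0 < y)
  have hly : 0 < Real.log y := Real.log_pos (by exact_mod_cast (by omega : 1 < y))
  have hlyx : Real.log y ≤ Real.log x := Real.log_le_log hy0 hyx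
  have hlyx2 : Real.log x ≤ 2 * Real.log y := by
    have := Real.log_le_log (Real.rpow_pos_of_pos hx0 _) hxb
    rw [Real.log_rpow hx0] at this
    linarith
  set τ := k / Real.log y with hτ
  have hτ0 : 0 < τ := div_pos hkpos hly
  have hKy : (K : ℝ) + 1 ≤ (y : ℝ) ^ τ := by
    rw [Real.rpow_def_of_pos hy0, hτ, mul_div_cancel₀ _ hly.ne', hk, Real.exp_log (by positivity)]
  have hfin : (mult B ∩ Set.Icc 1 N).Finite := (Set.finite_Icc 1 N).inter_of_right _
  have hmem : ∀ n ∈ hfin.toFinset, n ∈ mult B ∧ 0 < n ∧ n ≤ N := by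
    intro n hn
    obtain ⟨a1, a2⟩ := hfin.mem_toFinset.1 hn
    exact ⟨a1, a2.1, a2.2⟩
  have hfr := finite_rankin (τ := τ) hy2 hτ0 hKy hfin.toFinset hmem
    (fun n hn d hdn hdy => hb d (hyn.trans hdy) ⟨n, (hmem n hn).1, (hmem n hn).2.1, hdn⟩)
    (fun L _ => hKr L)
  rw [← Set.ncard_eq_toFinset_card _ hfin] at hfr
  have h8 : ((y : ℝ) * N) ^ τ * ∏ p ∈ y.primesBelow, (1 - (p : ℝ) ^ (-τ))⁻¹
      < (N : ℝ) ^ ((2 * k + 1) / Real.log (Real.log N)) := by
    calc ((y : ℝ) * N) ^ τ * ∏ p ∈ y.primesBelow, (1 - (p : ℝ) ^ (-τ))⁻¹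
        ≤ ((y : ℝ) * N) ^ τ * Real.exp (y * (1 / (τ * Real.log 2))) :=
          mul_le_mul_of_nonneg_left (prod_le' hτ0 y) (by positivity)
      _ = Real.exp (τ * (Real.log y + x) + y * (1 / (τ * Real.log 2))) := by
          have h10 : ((y : ℝ) * N) ^ τ = Real.exp (τ * (Real.log y + x)) := by
            rw [hx, ← Real.log_mul hy0.ne' hN0.ne', mul_comm τ,
              ← Real.rpow_def_of_pos (by positivity)]
          rw [Real.exp_add, h10]
      _ < Real.exp (x * ((2 * k + 1) / Real.log x)) := by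
          apply Real.exp_lt_exp.2
          have l1 : τ * (Real.log y + x) = k + k * x / Real.log y := by
            rw [hτ]
            field_simp
          have l2 : k * x / Real.log y ≤ 2 * k * x / Real.log x := by
            rw [div_le_div_iff₀ hly hlx]
            nlinarith [mul_pos hkpos hx0]
          have l3 : (y : ℝ) * (1 / (τ * Real.log 2))
              ≤ 2 * x ^ (1 / 2 : ℝ) * (Real.log x / (k * Real.log 2)) := by
            have : 1 / (τ * Real.log 2) = Real.log y / (k * Real.log 2) := by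
              rw [hτ]
              field_simp
            rw [this]
            apply mul_le_mul hyle _ (by positivity) (by positivity)
            exact div_le_div_of_nonneg_right hlyx (by positivity)
          have l4 : k + 2 * x ^ (1 / 2 : ℝ) * (Real.log x / (k * Real.log 2)) < x / Real.log x := by
            rw [lt_div_iff₀ hlx]
            linarith
          have l5 : x * ((2 * k + 1) / Real.log x) = 2 * k * x / Real.log x + x / Real.log x := by
            ring
          rw [l1, l5]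
          linarith
      _ = (N : ℝ) ^ ((2 * k + 1) / Real.log (Real.log N)) := by
          rw [← hx, hx, ← Real.rpow_def_of_pos hN0]
  linarith

end Pool.Agent.H239.MM
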