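import Pool.Agent.H239.MM.E

/-!
# Unordered and ordered representations
-/

set_option autoImplicit false

namespace Pool.Agent.H239.MM

open Classical in
/-- The number of ordered `h`-tuples of elements of `A` with sum `n`. -/
noncomputable def reps (A : Set ℕ) (h n : ℕ) : ℕ :=
  ((Finset.Nat.antidiagonalTuple h n).filter (fun v => ∀ i, v i ∈ A)).card

theorem rep_le_reps (A : Set ℕ) (h n : ℕ) : rep A h n ≤ reps A h n := by
  classical
  unfold rep reps
  set F := (Finset.Nat.antidiagonalTuple h n).filter (fun v => ∀ i, v i ∈ A) with hF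
  have hsub : {s : Multiset ℕ | Multiset.card s = h ∧ (∀ a ∈ s, a ∈ A) ∧ s.sum = n} ⊆
      (F.image fun v => ((List.ofFn v : List ℕ) : Multiset ℕ) : Finset (Multiset ℕ)) := by
    rintro s ⟨h1, h2, h3⟩
    obtain ⟨l, rfl⟩ := Quot.exists_rep s
    change Multiset.card (l : Multiset ℕ) = h at h1
    change (l : Multiset ℕ).sum = n at h3
    change ∀ a ∈ (l : Multiset ℕ), a ∈ A at h2
    rw [Multiset.coe_card] at h1
    rw [Multiset.sum_coe] at h3
    subst h1
    rw [Finset.mem_coe, Finset.mem_image]
    refine ⟨fun i => l.get i, ?_, ?_⟩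
    · rw [hF, Finset.mem_filter, Finset.Nat.mem_antidiagonalTuple]
      refine ⟨?_, fun i => h2 _ (Multiset.mem_coe.2 (List.get_mem l i))⟩
      rw [← h3]
      simp
    · show ((List.ofFn fun i => l.get i : List ℕ) : Multiset ℕ) = _
      rw [List.ofFn_get]
      rfl
  calc _ ≤ ((F.image fun v => ((List.ofFn v : List ℕ) : Multiset ℕ) :
        Finset (Multiset ℕ)) : Set (Multiset ℕ)).ncard :=
        Set.ncard_le_ncard hsub (Finset.finite_toSet _)
    _ = (F.image fun v => ((List.ofFn v : List ℕ) : Multiset ℕ)).card := Set.ncard_coe_finset _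
    _ ≤ F.card := Finset.card_image_le

end Pool.Agent.H239.MM
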